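import Pool.Agent.L0h99.MN.Stm2

set_option autoImplicit false
set_option linter.all false

namespace Pool.Agent.L0h78.MD

open Finset Pool.Agent.L0h99.MN Pool.Agent.L0h99.MD

theorem FUL : St_FUL := by
  intro V _ _ G v hall hee
  have hvS : v ∉ N G v := by
    rw [mem_N]
    exact G.loopless.irrefl v
  have huniv : (univ : Finset V) = insert v (N G v) := by
    ext w
    simp only [mem_univ, true_iff]
    exact hall w
  have hcard : (Fintype.card V : ℤ) = (N G v).card + 1 := by
    rw [← Finset.card_univ, huniv, Finset.card_insert_of_notMem hvS]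
    push_cast
    rfl
  have hs : ∀ s ∈ N G v, ((N G s).card : ℤ) = ((N G s ∩ N G v).card : ℤ) + 1 := by
    intro s hs
    have e : N G s = insert v (N G s ∩ N G v) := by
      ext w
      constructor
      · intro hw
        rcases Finset.mem_insert.1 (hall w) with h | h
        · exact Finset.mem_insert.2 (Or.inl h)
        · exact Finset.mem_insert.2 (Or.inr (Finset.mem_inter.2 ⟨hw, h⟩))
      · intro hw
        rcases Finset.mem_insert.1 hw with h | h
        · rw [h, mem_N]
          exact (mem_N.1 hs).symm
        · exact (Finset.mem_inter.1 h).1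
    have hv' : v ∉ N G s ∩ N G v := fun h => hvS (Finset.mem_inter.1 h).2
    have h2 := Finset.card_insert_of_notMem hv'
    rw [← e] at h2
    rw [h2]
    push_cast
    rfl
  have hE : E2 G = 2 * ((N G v).card : ℤ) + ee G (N G v) (N G v) := by
    unfold E2 ee
    rw [huniv, Finset.sum_insert hvS, Finset.sum_congr rfl hs, Finset.sum_add_distrib]
    simp
    ring
  rw [hE, hcard]
  linarith

end Pool.Agent.L0h78.MD
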