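import Pool.Agent.L0h99.MN.Stm2

set_option autoImplicit false
set_option linter.all false

namespace Pool.Agent.L0h78.MD

open Finset Pool.Agent.L0h99.MN Pool.Agent.L0h99.MD

theorem LOW : St_LOW := by
  intro V _ _ G h1 h2 h3
  have h5 : ∀ x, 5 ≤ (N G x).card := by
    intro x
    obtain ⟨y, hy⟩ := h2 x
    have h4 := h1 x y hy
    have hyy : y ∉ N G x ∩ N G y := fun h => G.loopless.irrefl y (mem_N.1 (Finset.mem_inter.1 h).2)
    have hsub : insert y (N G x ∩ N G y) ⊆ N G x := by
      intro w hw
      rcases Finset.mem_insert.1 hw with h | h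
      · rw [h, mem_N]; exact hy
      · exact (Finset.mem_inter.1 h).1
    have := Finset.card_le_card hsub
    rw [Finset.card_insert_of_notMem hyy] at this
    omega
  refine ⟨h5, ?_⟩
  by_contra hcon
  push Not at hcon
  have h8 : ∀ x ∈ (univ : Finset V), (8 : ℤ) ≤ ((N G x).card : ℤ) := by
    intro x _
    have := hcon x (h5 x)
    exact_mod_cast this
  have := Finset.sum_le_sum h8
  rw [Finset.sum_const, Finset.card_univ, nsmul_eq_mul] at this
  unfold E2 at h3
  linarith

end Pool.Agent.L0h78.MD
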