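import Pool.Agent.L0h99.MN.Stm2

set_option autoImplicit false
set_option linter.all false

namespace Pool.Agent.L0h78.MD

open Finset Pool.Agent.L0h99.MN Pool.Agent.L0h99.MD

theorem MON : St_MON := by
  intro V _ _ G G' hle ⟨B, h1, h2, h3⟩
  refine ⟨B, fun i => ⟨(h1 i).1, fun X hX hne hXB => ?_⟩, h2, fun i j hij => ?_⟩
  · obtain ⟨a, ha, b, hb, hab⟩ := (h1 i).2 X hX hne hXB
    exact ⟨a, ha, b, hb, hle hab⟩
  · obtain ⟨a, ha, b, hb, hab⟩ := h3 i j hij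
    exact ⟨a, ha, b, hb, hle hab⟩

end Pool.Agent.L0h78.MD
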