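import Pool.Agent.L0h99.MN.Stm2

set_option autoImplicit false
set_option linter.all false

namespace Pool.Agent.L0h78.MD

open Finset Pool.Agent.L0h99.MN Pool.Agent.L0h99.MD

/-- the rest after removing a circuit is empty or has at least three elements -/
theorem cyc_rest (hC : St_CYC) {V : Type} [Fintype V] [DecidableEq V] (H : SimpleGraph V)
    (R : Finset V) (hR : ∀ x ∈ R, (N H x).card = 2 ∧ N H x ⊆ R) {k : ℕ} (x : Fin (k + 3) → V)
    (hx : ∀ i, x i ∈ R) (hN : ∀ i, N H (x i) = {x (i + 1), x (i - 1)}) :
    R = univ.image x ∨ (univ.image x).card + 3 ≤ R.card := by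
  have hsub : univ.image x ⊆ R := by
    intro y hy
    obtain ⟨i, -, rfl⟩ := Finset.mem_image.1 hy
    exact hx i
  by_cases hne : (R \ univ.image x).Nonempty
  · right
    obtain ⟨k', x', hinj', hx', hN'⟩ := hC V H (R \ univ.image x) hne (by
      intro y hy
      obtain ⟨hyR, hyi⟩ := Finset.mem_sdiff.1 hy
      refine ⟨(hR y hyR).1, fun z hz => Finset.mem_sdiff.2 ⟨(hR y hyR).2 hz, fun hzi => hyi ?_⟩⟩
      obtain ⟨i, -, rfl⟩ := Finset.mem_image.1 hzi
      have h1 : y ∈ N H (x i) := mem_N.2 (mem_N.1 hz).symm
      rw [hN i, Finset.mem_insert, Finset.mem_singleton] at h1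
      rcases h1 with h1 | h1
      · rw [h1]; exact Finset.mem_image_of_mem _ (Finset.mem_univ _)
      · rw [h1]; exact Finset.mem_image_of_mem _ (Finset.mem_univ _))
    have h2 : univ.image x' ⊆ R \ univ.image x := by
      intro y hy
      obtain ⟨i, -, rfl⟩ := Finset.mem_image.1 hy
      exact hx' i
    have h3 := Finset.card_le_card h2
    rw [Finset.card_image_of_injective _ hinj', Finset.card_univ, Fintype.card_fin,
      Finset.card_sdiff_of_subset hsub] at h3
    omega
  · left
    rw [Finset.not_nonempty_iff_eq_empty, Finset.sdiff_eq_empty_iff_subset] at hne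
    exact Finset.Subset.antisymm hne hsub

theorem RGF : St_RGF := by
  intro hC V _ _ H R hcard hR
  obtain ⟨k, x, hinj, hx, hN⟩ := hC V H R (by rw [← Finset.card_pos, hcard]; norm_num) hR
  have h1 := cyc_rest hC H R hR x hx hN
  have hc : (univ.image x).card = k + 3 := by
    rw [Finset.card_image_of_injective _ hinj, Finset.card_univ, Fintype.card_fin]
  have hle : (univ.image x).card ≤ R.card := Finset.card_le_card (by
    intro y hy
    obtain ⟨i, -, rfl⟩ := Finset.mem_image.1 hy
    exact hx i)
  rcases h1 with h1 | h1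
  · have hk : k = 2 := by
      rw [← h1, hcard] at hc
      omega
    subst hk
    refine ⟨x, hinj, h1, ?_⟩
    intro i j hij
    have h2 : x j ∈ N H (x i) := mem_N.2 hij
    rw [hN i, Finset.mem_insert, Finset.mem_singleton] at h2
    have h3 : j = i + 1 ∨ j = i - 1 := by
      rcases h2 with h2 | h2
      · exact Or.inl (hinj h2)
      · exact Or.inr (hinj h2)
    clear hij h2
    rcases h3 with rfl | rfl
    · revert i
      decide
    · revert i
      decide
  · omega

end Pool.Agent.L0h78.MD
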